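import Pool.Agent.RN94.Count

set_option autoImplicit false

namespace TW

/-- RN9a arithmetic: `2^(K (2d+1))` beats every polynomial of degree `d` in `c K^a 4^K`. -/
theorem arith (C₀ : ℝ) (c a d : ℕ) : ∃ K : ℕ, 1 ≤ K ∧
    C₀ * ((c * K ^ a * 4 ^ K : ℕ) + 1 : ℝ) ^ d < (2 : ℝ) ^ (K * (2 * d + 1)) := by
  obtain ⟨K0, hK0⟩ := Pool.Agent.RN94.exp_beats_poly (Nat.ceil (max C₀ 0) * (c + 1) ^ d) (a * d)
  refine ⟨K0 + 1, by omega, ?_⟩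
  set K := K0 + 1 with hK
  have hK1 : 1 ≤ K := by omega
  have h1 : Nat.ceil (max C₀ 0) * (c + 1) ^ d * K ^ (a * d) < 2 ^ K := hK0 K (by omega)
  have hc : C₀ ≤ ((Nat.ceil (max C₀ 0) : ℕ) : ℝ) := (le_max_left _ _).trans (Nat.le_ceil _)
  have hbase : c * K ^ a * 4 ^ K + 1 ≤ (c + 1) * K ^ a * 4 ^ K := by
    have : 0 < K ^ a * 4 ^ K := by positivity
    nlinarith
  have hpow : (c * K ^ a * 4 ^ K + 1) ^ d ≤ (c + 1) ^ d * K ^ (a * d) * 2 ^ (2 * d * K) := by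
    calc (c * K ^ a * 4 ^ K + 1) ^ d ≤ ((c + 1) * K ^ a * 4 ^ K) ^ d := Nat.pow_le_pow_left hbase d
      _ = (c + 1) ^ d * K ^ (a * d) * 2 ^ (2 * d * K) := by
          have h4 : (4 : ℕ) = 2 ^ 2 := by norm_num
          rw [mul_pow, mul_pow, ← pow_mul, ← pow_mul, h4, ← pow_mul]
          congr 2; ring
  have hnat : Nat.ceil (max C₀ 0) * (c * K ^ a * 4 ^ K + 1) ^ d < 2 ^ (K * (2 * d + 1)) := by
    calc Nat.ceil (max C₀ 0) * (c * K ^ a * 4 ^ K + 1) ^ d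
        ≤ Nat.ceil (max C₀ 0) * ((c + 1) ^ d * K ^ (a * d) * 2 ^ (2 * d * K)) :=
          Nat.mul_le_mul_left _ hpow
      _ = Nat.ceil (max C₀ 0) * (c + 1) ^ d * K ^ (a * d) * 2 ^ (2 * d * K) := by ring
      _ < 2 ^ K * 2 ^ (2 * d * K) := Nat.mul_lt_mul_of_pos_right h1 (by positivity)
      _ = 2 ^ (K * (2 * d + 1)) := by rw [← pow_add]; congr 1; ring
  have hreal : ((Nat.ceil (max C₀ 0) : ℕ) : ℝ) * ((c * K ^ a * 4 ^ K : ℕ) + 1 : ℝ) ^ d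
      < (2 : ℝ) ^ (K * (2 * d + 1)) := by
    exact_mod_cast hnat
  refine lt_of_le_of_lt ?_ hreal
  exact mul_le_mul_of_nonneg_right hc (by positivity)

end TW
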