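import Mathlib

namespace Pool.Agent.RN94

/-- exponential beats polynomial, in the form needed for the final count -/
theorem exp_beats_poly (M N : ℕ) : ∃ K0 : ℕ, ∀ K ≥ K0, M * K ^ N < 2 ^ K := by
  have h : Filter.Tendsto (fun n : ℕ => (n : ℝ) ^ N / (2:ℝ) ^ n) Filter.atTop (nhds 0) :=
    tendsto_pow_const_div_const_pow_of_one_lt N (by norm_num)
  have h2 : ∀ᶠ n : ℕ in Filter.atTop, (n : ℝ) ^ N / (2:ℝ) ^ n < 1 / ((M:ℝ) + 1) := by
    have hpos : (0:ℝ) < 1 / ((M:ℝ) + 1) := by positivity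
    exact h.eventually_lt_const hpos
  obtain ⟨K0, hK0⟩ := Filter.eventually_atTop.1 h2
  refine ⟨K0, fun K hK => ?_⟩
  have h3 := hK0 K hK
  have hp : (0:ℝ) < (2:ℝ) ^ K := by positivity
  have hM : (0:ℝ) < (M:ℝ) + 1 := by positivity
  rw [div_lt_div_iff₀ hp hM] at h3
  have h4 : (M:ℝ) * (K:ℝ) ^ N < (2:ℝ) ^ K := by
    have : (0:ℝ) ≤ (K:ℝ) ^ N := by positivity
    nlinarith
  exact_mod_cast h4

/-- Final arithmetic of the disproof: sizes `≤ 2^(a K) (c K)^(e E)` against `2^(E K)` visible sets. -/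
theorem count_final (a b c e C d : ℕ) :
    ∃ E K0 : ℕ, 0 < E ∧ ∀ K ≥ K0, C * (2 ^ (a * K + b) * (c * K + c) ^ (e * E + e)) ^ d < 2 ^ (E * K) := by
  refine ⟨a * d + 1, ?_⟩
  set E := a * d + 1 with hE
  set N := (e * E + e) * d with hN
  obtain ⟨K0, hK0⟩ := exp_beats_poly (C * 2 ^ (b * d) * (2 * c) ^ N) N
  refine ⟨K0 + 1, Nat.succ_pos _, fun K hK => ?_⟩
  have hK1 : 1 ≤ K := by omega
  have h1 := hK0 K (by omega)
  have h2 : (c * K + c) ≤ 2 * c * K := by nlinarith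
  have h3 : (2 ^ (a * K + b) * (c * K + c) ^ (e * E + e)) ^ d
      ≤ 2 ^ (a * d * K) * (2 ^ (b * d) * ((2 * c) ^ N * K ^ N)) := by
    rw [mul_pow, ← pow_mul, ← pow_mul, ← hN, ← mul_pow]
    have h4 : (c * K + c) ^ N ≤ (2 * c * K) ^ N := Nat.pow_le_pow_left h2 N
    have h5 : (2:ℕ) ^ ((a * K + b) * d) = 2 ^ (a * d * K) * 2 ^ (b * d) := by
      rw [← pow_add]; congr 1; ring
    rw [h5, mul_assoc]
    exact Nat.mul_le_mul_left _ (Nat.mul_le_mul_left _ h4)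
  calc C * (2 ^ (a * K + b) * (c * K + c) ^ (e * E + e)) ^ d
      ≤ C * (2 ^ (a * d * K) * (2 ^ (b * d) * ((2 * c) ^ N * K ^ N))) := Nat.mul_le_mul_left _ h3
    _ = 2 ^ (a * d * K) * (C * 2 ^ (b * d) * (2 * c) ^ N * K ^ N) := by ring
    _ < 2 ^ (a * d * K) * 2 ^ K := by
        exact Nat.mul_lt_mul_of_pos_left h1 (by positivity)
    _ = 2 ^ (E * K) := by rw [← pow_add, hE]; congr 1; ring

end Pool.Agent.RN94
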