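import Pool.Agent.RN.Struct
import Pool.Agent.RN94.Count

set_option autoImplicit false

namespace TW

open Finset

/-- number of static sides of a letter -/
def sides (st : ℕ → Bool) : Lt → ℕ
  | .leaf r _ => if st r then 1 else 0
  | .br a b _ _ => (if st a then 1 else 0) + (if st b then 1 else 0)

/-- total number of static sides -/
def Net.sides (N : Net) : ℕ := (N.w.map (TW.sides N.st)).sum

/-- number of static rows -/
def Net.nst (N : Net) : ℕ := ∑ r ∈ range N.R, if N.st r then 1 else 0

/-- total capacity of the young rows -/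
def Net.ycap (N : Net) : ℕ := ∑ r ∈ range N.R, if N.st r then 0 else N.cap r

/-- number of young used rows -/
def Net.nyg (N : Net) : ℕ :=
  ∑ r ∈ range N.R, if N.st r then 0 else (if 0 < N.cap r then 1 else 0)

theorem sum_range_three (f : ℕ → ℕ) (n : ℕ) :
    ∑ i ∈ range (3 * n), f i = ∑ q ∈ range n, (f (3 * q) + f (3 * q + 1) + f (3 * q + 2)) := by
  induction n with
  | zero => simp
  | succ n ih =>
    rw [show 3 * (n + 1) = 3 * n + 1 + 1 + 1 by ring, sum_range_succ, sum_range_succ,
      sum_range_succ, ih, sum_range_succ]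
    ring

theorem step_nst (N : Net) : N.step.nst = N.nst := by
  show ∑ r ∈ range (3 * N.R), _ = _
  rw [sum_range_three]
  refine sum_congr rfl fun q _ => ?_
  rw [st0, st1, st2]
  simp

theorem step_ycap (N : Net) : N.step.ycap = 2 * N.ycap + 4 * N.nst := by
  show ∑ r ∈ range (3 * N.R), _ = _
  rw [sum_range_three, Net.ycap, Net.nst, mul_sum, mul_sum, ← sum_add_distrib]
  refine sum_congr rfl fun q _ => ?_
  rw [st0, st1, st2, cap0, cap1, cap2]
  by_cases h : N.st q = true <;> simp [h]

theorem step_nyg (N : Net) : N.step.nyg = N.nyg + 2 * N.nst := by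
  show ∑ r ∈ range (3 * N.R), _ = _
  rw [sum_range_three, Net.nyg, Net.nst, mul_sum, ← sum_add_distrib]
  refine sum_congr rfl fun q _ => ?_
  rw [st0, st1, st2, cap0, cap1, cap2]
  by_cases h : N.st q = true <;> simp [h]

theorem ends_length (N : Net) (c : Bool) : (ends N c).length = N.ycap := by
  have h : ∀ n, ((List.range n).flatMap fun r =>
      if N.st r then [] else List.replicate (N.cap r) (Lt.leaf (3 * r + 1) c)).length
      = ∑ r ∈ range n, if N.st r then 0 else N.cap r := by
    intro n
    induction n with
    | zero => simp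
    | succ n ih =>
      rw [List.range_succ, List.flatMap_append, List.length_append, ih, sum_range_succ]
      congr 1
      by_cases h : N.st n = true <;> simp [h]
  exact h N.R

theorem cn_blk_length (st : ℕ → Bool) (ℓ : Lt) : (blk st ℓ).length = 1 + 3 * sides st ℓ := by
  cases ℓ with
  | leaf r c => by_cases h : st r = true <;> simp [blk, sides, h]
  | br a b c d =>
    by_cases ha : st a = true <;> by_cases hb : st b = true <;> simp [blk, sides, ha, hb]

theorem cn_blk_sides (N : Net) (ℓ : Lt) :
    ((blk N.st ℓ).map (sides N.step.st)).sum = sides N.st ℓ := by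
  cases ℓ with
  | leaf r c => by_cases h : N.st r = true <;> simp [blk, sides, st0, st1, st2, h]
  | br a b c d =>
    by_cases ha : N.st a = true <;> by_cases hb : N.st b = true <;>
      simp [blk, sides, st0, st1, st2, ha, hb]

theorem step_length (N : Net) :
    N.step.w.length = N.w.length + 3 * N.sides + 2 * N.ycap := by
  have h : ∀ w : List Lt, (w.flatMap (blk N.st)).length
      = w.length + 3 * (w.map (sides N.st)).sum := by
    intro w
    induction w with
    | nil => simp
    | cons ℓ w ih =>
      rw [List.flatMap_cons, List.length_append, ih, cn_blk_length, List.length_cons, List.map_cons,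
        List.sum_cons]
      ring
  have hw : N.step.w = ends N true ++ N.w.flatMap (blk N.st) ++ ends N false := rfl
  rw [hw, List.length_append, List.length_append, ends_length, ends_length, h, Net.sides]
  ring

theorem ends_sides (N : Net) (c : Bool) : ((ends N c).map (sides N.step.st)).sum = 0 := by
  rw [List.sum_eq_zero_iff]
  intro x hx
  obtain ⟨ℓ, hℓ, rfl⟩ := List.mem_map.1 hx
  obtain ⟨r, hr, hm⟩ := List.mem_flatMap.1 hℓ
  by_cases hs : N.st r = true
  · rw [if_pos hs] at hm; simp at hm
  · rw [if_neg hs] at hm
    obtain ⟨hc, rfl⟩ := List.mem_replicate.1 hm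
    show (if N.step.st (3 * r + 1) then 1 else 0) = 0
    rw [st1, if_neg hs]

theorem step_sides (N : Net) : N.step.sides = N.sides := by
  have h : ∀ w : List Lt, ((w.flatMap (blk N.st)).map (sides N.step.st)).sum
      = (w.map (sides N.st)).sum := by
    intro w
    induction w with
    | nil => simp
    | cons ℓ w ih =>
      rw [List.flatMap_cons, List.map_append, List.sum_append, ih, cn_blk_sides, List.map_cons,
        List.sum_cons]
  have hw : N.step.w = ends N true ++ N.w.flatMap (blk N.st) ++ ends N false := rfl
  rw [Net.sides, hw, List.map_append, List.map_append, List.sum_append, List.sum_append,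
    ends_sides, ends_sides, h, Net.sides]
  ring

theorem rows_eq (N : Net) (h : N.WF) : N.rows = N.nst + N.nyg := by
  rw [Net.rows, card_filter, Net.nst, Net.nyg, ← sum_add_distrib]
  refine sum_congr rfl fun r _ => ?_
  by_cases hs : N.st r = true
  · rw [if_pos (h.st_pos r hs), if_pos hs, if_pos hs]
  · rw [if_neg hs, if_neg hs]; simp

/-- one epoch, after `j` levels -/
theorem iter_count (N : Net) (j : ℕ) :
    (Net.step^[j] N).nst = N.nst ∧
    (Net.step^[j] N).sides = N.sides ∧
    (Net.step^[j] N).nyg = N.nyg + 2 * j * N.nst ∧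
    (Net.step^[j] N).ycap + 4 * N.nst = 2 ^ j * (N.ycap + 4 * N.nst) ∧
    (Net.step^[j] N).w.length + 2 * (N.ycap + 4 * N.nst) + 8 * j * N.nst
      = N.w.length + 3 * j * N.sides + 2 * 2 ^ j * (N.ycap + 4 * N.nst) := by
  induction j with
  | zero => simp
  | succ j ih =>
    obtain ⟨a, b, c, d, e⟩ := ih
    rw [Function.iterate_succ_apply', step_nst, step_sides, step_nyg, step_ycap, step_length]
    refine ⟨a, b, by rw [c, a]; ring, ?_, ?_⟩
    · rw [a, pow_succ]; linear_combination 2 * d
    · rw [b, pow_succ]; linear_combination e + 2 * d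

/-- capacities in one epoch -/
theorem iter_cap (N : Net) (K : ℕ) (h1 : ∀ r, N.st r = true → N.cap r ≤ 2 ^ K)
    (h2 : ∀ r, N.st r = false → N.cap r ≤ 1) (j : ℕ) :
    (∀ r, (Net.step^[j] N).st r = true → (Net.step^[j] N).cap r ≤ 2 ^ K) ∧
    (∀ r, (Net.step^[j] N).st r = false → (Net.step^[j] N).cap r ≤ 2 ^ j) := by
  induction j with
  | zero => simpa using ⟨h1, h2⟩
  | succ j ih =>
    obtain ⟨a, b⟩ := ih
    rw [Function.iterate_succ_apply']
    set M := Net.step^[j] N
    have h2j : 2 ≤ 2 ^ (j + 1) := by
      rw [pow_succ]; have := Nat.one_le_two_pow (n := j); omega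
    constructor
    · intro r hr
      obtain ⟨q, hq⟩ := row_cases r
      rcases hq with rfl | rfl | rfl
      · rw [st0] at hr; cases hr
      · rw [st1] at hr; rw [cap1, if_pos hr]; exact a q hr
      · rw [st2] at hr; cases hr
    · intro r hr
      obtain ⟨q, hq⟩ := row_cases r
      rcases hq with rfl | rfl | rfl
      · rw [cap0]; split_ifs <;> omega
      · rw [st1] at hr; rw [cap1, if_neg (by simp [hr])]
        have := b q hr
        rw [pow_succ]; omega
      · rw [cap2]; split_ifs <;> omega

theorem iter_WF (N : Net) (h : N.WF) (j : ℕ) : (Net.step^[j] N).WF := by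
  induction j with
  | zero => exact h
  | succ j ih => rw [Function.iterate_succ_apply']; exact WF_step _ ih

theorem net_WF (K E : ℕ) : (net K E).WF := by
  induction E with
  | zero => exact iter_WF _ WF_base K
  | succ E ih => exact iter_WF _ (WF_freeze _ ih) K

theorem sides_le (N : Net) : N.sides ≤ 2 * N.w.length := by
  have : ∀ w : List Lt, (w.map (sides N.st)).sum ≤ 2 * w.length := by
    intro w
    induction w with
    | nil => simp
    | cons ℓ w ih =>
      rw [List.map_cons, List.sum_cons, List.length_cons]
      have : sides N.st ℓ ≤ 2 := by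
        cases ℓ with
        | leaf r c => simp only [sides]; split_ifs <;> omega
        | br a b c d => simp only [sides]; split_ifs <;> omega
      omega
  exact this N.w

theorem freeze_nst (N : Net) : N.freeze.nst = N.rows := by
  rw [Net.rows, card_filter]
  refine sum_congr rfl fun r _ => ?_
  show (if decide (0 < N.cap r) = true then 1 else 0) = _
  simp

theorem freeze_ycap (N : Net) : N.freeze.ycap = 0 := by
  refine sum_eq_zero fun r _ => ?_
  show (if decide (0 < N.cap r) = true then 0 else N.cap r) = 0
  by_cases h : 0 < N.cap r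
  · simp [h]
  · simp [h]; omega

theorem freeze_nyg (N : Net) : N.freeze.nyg = 0 := by
  refine sum_eq_zero fun r _ => ?_
  show (if decide (0 < N.cap r) = true then 0 else (if 0 < N.cap r then 1 else 0)) = 0
  by_cases h : 0 < N.cap r
  · simp [h]
  · simp [h]

/-- RN5 count -/
theorem count (E : ℕ) : ∃ C : ℕ, ∀ K : ℕ, 1 ≤ K →
    (net K E).w.length ≤ C * K ^ E * 2 ^ K ∧ (net K E).rows ≤ C * K ^ E ∧
      ∀ r, (net K E).cap r ≤ 2 ^ K := by
  induction E with
  | zero =>
    refine ⟨2, fun K hK => ?_⟩
    obtain ⟨a, b, c, d, e⟩ := iter_count Net.base K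
    have e1 : Net.base.nst = 0 := by decide
    have e2 : Net.base.sides = 0 := by decide
    have e3 : Net.base.nyg = 1 := by decide
    have e4 : Net.base.ycap = 1 := by decide
    have e5 : Net.base.w.length = 0 := rfl
    rw [e1] at a c d e
    rw [e2] at b e
    rw [e3] at c
    rw [e4] at d e
    rw [e5] at e
    have hn : net K 0 = Net.step^[K] Net.base := rfl
    rw [hn]
    refine ⟨by simp only [pow_zero]; omega, ?_, ?_⟩
    · rw [rows_eq _ (iter_WF _ WF_base K), a, c]; simp
    · intro r
      obtain ⟨h1, h2⟩ := iter_cap Net.base K (by intro r hr; exact absurd hr (by simp [Net.base]))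
        (by intro r _; show (if r = 0 then 1 else 0) ≤ 1; split_ifs <;> omega) K
      by_cases h : (Net.step^[K] Net.base).st r = true
      · exact h1 r h
      · exact h2 r (by simpa using h)
  | succ E ih =>
    obtain ⟨C, hC⟩ := ih
    refine ⟨15 * C, fun K hK => ?_⟩
    obtain ⟨h1, h2, h3⟩ := hC K hK
    obtain ⟨a, b, c, d, e⟩ := iter_count (net K E).freeze K
    have hWF := WF_freeze _ (net_WF K E)
    have hn : net K (E + 1) = Net.step^[K] (net K E).freeze := rfl
    have hs := sides_le (net K E).freeze
    have hw : (net K E).freeze.w.length = (net K E).w.length := rfl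
    rw [freeze_nst] at a c d e
    rw [freeze_ycap] at d e
    rw [freeze_nyg] at c
    rw [hw] at e hs
    rw [hn]
    set L := (net K E).w.length
    set U := (net K E).rows
    set S := (net K E).freeze.sides
    set L' := (Net.step^[K] (net K E).freeze).w.length
    have hKE : 1 ≤ K ^ E := Nat.one_le_pow _ _ hK
    refine ⟨?_, ?_, ?_⟩
    · have e1 : L' ≤ L + 3 * K * S + 8 * 2 ^ K * U := by
        have : 2 * 2 ^ K * (0 + 4 * U) = 8 * 2 ^ K * U := by ring
        omega
      have e2 : 3 * K * S ≤ 6 * K * L := by
        calc 3 * K * S ≤ 3 * K * (2 * L) := Nat.mul_le_mul_left _ hs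
          _ = 6 * K * L := by ring
      have e3 : L ≤ K * L := Nat.le_mul_of_pos_left _ hK
      have e4 : U ≤ K * U := Nat.le_mul_of_pos_left _ hK
      calc L' ≤ K * L + 6 * K * L + 8 * 2 ^ K * (K * U) := by
            have := Nat.mul_le_mul_left (8 * 2 ^ K) e4
            omega
        _ ≤ K * (C * K ^ E * 2 ^ K) + 6 * K * (C * K ^ E * 2 ^ K) + 8 * 2 ^ K * (K * (C * K ^ E)) := by
            gcongr
        _ = 15 * C * K ^ (E + 1) * 2 ^ K := by rw [pow_succ]; ring
    · rw [rows_eq _ (iter_WF _ hWF K), a, c]
      have e4 : U ≤ K * U := Nat.le_mul_of_pos_left _ hK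
      calc U + (0 + 2 * K * U) ≤ 3 * (K * U) := by
            have : 2 * K * U = 2 * (K * U) := by ring
            omega
        _ ≤ 3 * (K * (C * K ^ E)) := by gcongr
        _ ≤ 15 * C * K ^ (E + 1) := by
            rw [pow_succ]
            have : 3 * (K * (C * K ^ E)) + 12 * (K * (C * K ^ E)) = 15 * C * (K ^ E * K) := by ring
            omega
    · intro r
      obtain ⟨g1, g2⟩ := iter_cap (net K E).freeze K (by intro r _; exact h3 r)
        (by
          intro r hr
          have : decide (0 < (net K E).cap r) = false := hr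
          have : ¬ (0 < (net K E).cap r) := of_decide_eq_false this
          show (net K E).cap r ≤ 1
          omega) K
      by_cases h : (Net.step^[K] (net K E).freeze).st r = true
      · exact g1 r h
      · exact g2 r (by simpa using h)

end TW
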