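import Pool.Agent.RN94.Count

namespace Pool.Agent.RN94

/-- For every family of sizes `N E K` with `N E K ≤ a_E (K+1)^(b_E) 2^(c₀ K)` (`c₀` absolute), the number
`2^(E K)` beats every polynomial of the size. -/
theorem final_choice (N : ℕ → ℕ → ℕ) (c0 : ℕ)
    (hN : ∀ E, ∃ a b, ∀ K, N E K ≤ a * (K + 1) ^ b * 2 ^ (c0 * K)) (C d : ℕ) :
    ∃ E K0 : ℕ, 0 < E ∧ ∀ K ≥ K0, C * (N E K + 1) ^ d < 2 ^ (E * K) := by
  refine ⟨c0 * d + 1, ?_⟩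
  set E := c0 * d + 1 with hE
  obtain ⟨a, b, hab⟩ := hN E
  obtain ⟨K0, hK0⟩ := exp_beats_poly (C * ((a + 1) * 2 ^ b) ^ d) (b * d)
  refine ⟨K0 + 1, Nat.succ_pos _, fun K hK => ?_⟩
  have hK1 : 1 ≤ K := by omega
  have h1 := hK0 K (by omega)
  have h2 : N E K + 1 ≤ (a + 1) * 2 ^ b * K ^ b * 2 ^ (c0 * K) := by
    have h3 := hab K
    have h4 : (K + 1) ^ b ≤ 2 ^ b * K ^ b := by
      rw [← mul_pow]; exact Nat.pow_le_pow_left (by omega) b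
    have h5 : 1 ≤ 2 ^ b * K ^ b * 2 ^ (c0 * K) := by
      have : 0 < 2 ^ b * K ^ b * 2 ^ (c0 * K) := by positivity
      omega
    calc N E K + 1 ≤ a * (2 ^ b * K ^ b) * 2 ^ (c0 * K) + 2 ^ b * K ^ b * 2 ^ (c0 * K) := by
          have := Nat.mul_le_mul_right (2 ^ (c0 * K)) (Nat.mul_le_mul_left a h4)
          omega
      _ = (a + 1) * 2 ^ b * K ^ b * 2 ^ (c0 * K) := by ring
  have h6 : (N E K + 1) ^ d ≤ ((a + 1) * 2 ^ b) ^ d * K ^ (b * d) * 2 ^ (c0 * d * K) := by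
    calc (N E K + 1) ^ d ≤ ((a + 1) * 2 ^ b * K ^ b * 2 ^ (c0 * K)) ^ d := Nat.pow_le_pow_left h2 d
      _ = ((a + 1) * 2 ^ b) ^ d * K ^ (b * d) * 2 ^ (c0 * d * K) := by
          rw [mul_pow, mul_pow ((a + 1) * 2 ^ b), ← pow_mul, ← pow_mul]
          congr 2; ring
  calc C * (N E K + 1) ^ d ≤ C * (((a + 1) * 2 ^ b) ^ d * K ^ (b * d) * 2 ^ (c0 * d * K)) :=
        Nat.mul_le_mul_left _ h6
    _ = C * ((a + 1) * 2 ^ b) ^ d * K ^ (b * d) * 2 ^ (c0 * d * K) := by ring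
    _ < 2 ^ K * 2 ^ (c0 * d * K) := Nat.mul_lt_mul_of_pos_right h1 (by positivity)
    _ = 2 ^ (E * K) := by rw [← pow_add, hE]; congr 1; ring

/-- The same with a real constant and two exponents, in the shape of the frozen statement:
`m ≤ n ≤ N`. -/
theorem final_choice_real (N : ℕ → ℕ → ℕ) (c0 : ℕ)
    (hN : ∀ E, ∃ a b, ∀ K, N E K ≤ a * (K + 1) ^ b * 2 ^ (c0 * K)) (C : ℝ) (d₁ d₂ : ℕ) :
    ∃ E K0 : ℕ, 0 < E ∧ ∀ K ≥ K0, ∀ m n : ℕ, m ≤ n → n ≤ N E K →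
      C * ((m : ℝ) + 1) ^ d₁ * ((n : ℝ) + 1) ^ d₂ < 2 ^ (E * K) := by
  obtain ⟨E, K0, hE, h⟩ := final_choice N c0 hN (Nat.ceil (max C 0)) (d₁ + d₂)
  refine ⟨E, K0, hE, fun K hK m n hmn hn => ?_⟩
  have h1 := h K hK
  have h2 : ((Nat.ceil (max C 0) : ℕ) : ℝ) * ((N E K : ℝ) + 1) ^ (d₁ + d₂) < 2 ^ (E * K) := by
    exact_mod_cast h1
  refine lt_of_le_of_lt ?_ h2
  have hc : C ≤ ((Nat.ceil (max C 0) : ℕ) : ℝ) := (le_max_left _ _).trans (Nat.le_ceil _)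
  have hc0 : (0:ℝ) ≤ ((Nat.ceil (max C 0) : ℕ) : ℝ) := Nat.cast_nonneg _
  have hm : ((m : ℝ) + 1) ≤ (N E K : ℝ) + 1 := by
    have : (m : ℝ) ≤ (N E K : ℝ) := by exact_mod_cast hmn.trans hn
    linarith
  have hn' : ((n : ℝ) + 1) ≤ (N E K : ℝ) + 1 := by
    have : (n : ℝ) ≤ (N E K : ℝ) := by exact_mod_cast hn
    linarith
  have hm1 : ((m : ℝ) + 1) ^ d₁ ≤ ((N E K : ℝ) + 1) ^ d₁ := pow_le_pow_left₀ (by positivity) hm _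
  have hn1 : ((n : ℝ) + 1) ^ d₂ ≤ ((N E K : ℝ) + 1) ^ d₂ := pow_le_pow_left₀ (by positivity) hn' _
  calc C * ((m : ℝ) + 1) ^ d₁ * ((n : ℝ) + 1) ^ d₂
      ≤ ((Nat.ceil (max C 0) : ℕ) : ℝ) * ((m : ℝ) + 1) ^ d₁ * ((n : ℝ) + 1) ^ d₂ := by
        gcongr
    _ ≤ ((Nat.ceil (max C 0) : ℕ) : ℝ) * ((N E K : ℝ) + 1) ^ d₁ * ((N E K : ℝ) + 1) ^ d₂ := by
        gcongr
    _ = ((Nat.ceil (max C 0) : ℕ) : ℝ) * ((N E K : ℝ) + 1) ^ (d₁ + d₂) := by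
        rw [pow_add]; ring

end Pool.Agent.RN94
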